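import Pool.Agent.Helper187.CC.Stmts

set_option autoImplicit false
open Finset

namespace H187CC

variable {A : Type}

private lemma star_seg_snoc (x : ℕ → A) (a k : ℕ) : seg x a k ++ [x (a + k)] = seg x a (k + 1) := by
  rw [seg_append, seg_succ, seg_zero]

private lemma star_getLast (x : ℕ → A) (a k : ℕ) :
    (seg x a (k + 1)).getLast? = some (x (a + k)) := by
  rw [← star_seg_snoc]; simp

private lemma star_phi_single (t : ℝ) (h0 : 0 < t) (h1 : t < 1) (c : A) :
    phi t [c] = 1 / (1 - t) := by
  have h := phi_rec t h0 h1 [c] trivial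
  simp [del_cons] at h
  have : (1 : ℝ) - t ≠ 0 := by linarith
  field_simp
  linarith

open Classical in
private lemma star_ind_pos {p : Prop} (h : p) : ind p = 1 := by simp [ind, h]

open Classical in
private lemma star_ind_neg {p : Prop} (h : ¬ p) : ind p = 0 := by simp [ind, h]

private lemma star_proper_snoc (x : ℕ → A) (a k : ℕ) (h : Proper (seg x a (k + 1)))
    (h2 : x (a + k) ≠ x (a + k + 1)) : Proper (seg x a (k + 2)) := by
  rw [← star_seg_snoc] at h
  have h3 : Proper (x (a + k) :: [x (a + k + 1)]) := ⟨h2, trivial⟩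
  have h4 := Proper_glue h h3
  have h5 : seg x a (k + 2) = seg x a k ++ x (a + k) :: [x (a + k + 1)] := by
    rw [seg_append, seg_succ, seg_succ, seg_zero]
  rw [h5]; exact h4

private lemma star_parts (I G : ℕ → ℝ) (m : ℕ) :
    ∑ j ∈ range (m + 1), I j * (G (j + 1) - G j) =
      I m * G (m + 1) - I 0 * G 0 - ∑ l ∈ range m, G (l + 1) * (I (l + 1) - I l) := by
  induction m with
  | zero => simp; ring
  | succ m ih =>
    rw [Finset.sum_range_succ, ih, Finset.sum_range_succ _ m]
    ring

theorem taskStar : TaskStar := by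
  intro hSC hN3r hN3 hP1 A t h0 h1 x
  have hN := hN3r hSC A t h0 h1
  have hP := hP1 hN3 A t h0 h1 x
  ext a b hab
  obtain ⟨m, rfl⟩ := Nat.exists_eq_add_of_le hab
  rw [IncidenceAlgebra.mul_apply]
  have e1 : a + m + 1 - a = m + 1 := by omega
  -- the right side
  have hR : (el (phi t) x + el (eps t) x) a (a + m) =
      phi t (seg x a (m + 1)) + (1 + t) * t ^ (m + 1) * pi' t (seg x a (m + 1)) *
        ind (x (a + m) = x a) := by
    rw [IncidenceAlgebra.add_apply]
    simp only [el, IncidenceAlgebra.coe_mk, hab, if_true, e1]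
    congr 1
    unfold eps
    rw [star_getLast, seg_length, seg_succ]
    congr 1
    simp only [List.head?_cons, Option.some.injEq]
    by_cases h : x a = x (a + m)
    · rw [star_ind_pos h, star_ind_pos h.symm]
    · rw [star_ind_neg h, star_ind_neg (fun h' => h h'.symm)]
  rw [hR]
  -- the left side
  set I : ℕ → ℝ := fun l => ind (x (a + l) = x a) with hI
  set G : ℕ → ℝ := fun l => t ^ l * (pi' t (seg x a l) * phi t (seg x (a + l) (m + 1 - l))) with hG
  have hIcc : Icc a (a + m) = (range (m + 1)).image (fun l => a + l) := by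
    ext c
    simp only [mem_Icc, mem_image, mem_range]
    constructor
    · intro h; exact ⟨c - a, by omega, by omega⟩
    · rintro ⟨l, h1, rfl⟩; omega
  rw [hIcc, Finset.sum_image (fun p _ q _ h => by simpa using h), Finset.sum_range_succ']
  have hzero : (el (phi t) x * el (Delta t) x) a (a + 0) * (el (phi t) x) (a + 0) (a + m)
      = phi t (seg x a (m + 1)) / (1 - t) := by
    rw [add_zero, IncidenceAlgebra.mul_apply, Icc_self, sum_singleton]
    simp only [el, IncidenceAlgebra.coe_mk, hab, if_true, e1, le_refl]
    have : a + 1 - a = 1 := by omega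
    rw [this, seg_succ x a 0, seg_zero, star_phi_single t h0 h1]
    simp [Delta]
    ring
  rw [hzero]
  have hterm : ∀ l ∈ range m, (el (phi t) x * el (Delta t) x) a (a + (l + 1)) *
      (el (phi t) x) (a + (l + 1)) (a + m) = (1 + t) * (G (l + 1) * (I (l + 1) - I l)) := by
    intro l hl
    rw [mem_range] at hl
    rw [hP a (a + (l + 1)) (by omega)]
    have e2 : a + (l + 1) + 1 - a = l + 2 := by omega
    have e3 : a + (l + 1) - a = l + 1 := by omega
    have e4 : a + (l + 1) - 1 = a + l := by omega
    have e5 : a + m + 1 - (a + (l + 1)) = m + 1 - (l + 1) := by omega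
    have e6 : a + (l + 1) ≤ a + m := by omega
    simp only [el, IncidenceAlgebra.coe_mk, e6, if_true, e2, e3, e4, e5]
    have hs1 : ind (x a = x (a + (l + 1))) = I (l + 1) := by
      simp only [hI]
      by_cases h : x a = x (a + (l + 1))
      · rw [star_ind_pos h, star_ind_pos h.symm]
      · rw [star_ind_neg h, star_ind_neg (fun h' => h h'.symm)]
    have hs2 : ind (x a = x (a + l)) = I l := by
      simp only [hI]
      by_cases h : x a = x (a + l)
      · rw [star_ind_pos h, star_ind_pos h.symm]
      · rw [star_ind_neg h, star_ind_neg (fun h' => h h'.symm)]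
    rw [hs1, hs2]
    by_cases hp : Proper (seg x a (l + 2))
    · rw [star_ind_pos hp]
      simp only [hG]
      ring
    · rw [star_ind_neg hp]
      by_cases hp1 : Proper (seg x a (l + 1))
      · have heq : x (a + l) = x (a + l + 1) := by
          by_contra hne
          exact hp (star_proper_snoc x a l hp1 hne)
        have : I (l + 1) = I l := by
          simp only [hI]
          rw [show a + (l + 1) = a + l + 1 by ring, ← heq]
        rw [this]; ring
      · simp only [hG]
        rw [pi_improper t _ hp1]
        ring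
  rw [Finset.sum_congr rfl hterm, ← Finset.mul_sum]
  have hpar := star_parts I G m
  -- N3r
  have hv := hN (x a) (seg x a (m + 1))
  rw [vspl_seg] at hv
  have hv2 : ∑ j ∈ range (m + 1), ind (x (a + j) = x a) *
      (t ^ ((seg x a j).length + 1) * (pi' t (seg x a j ++ [x (a + j)]) *
        phi t (seg x (a + j + 1) (m + 1 - 1 - j)))
      - t ^ (seg x a j).length * (pi' t (seg x a j) *
        phi t (x (a + j) :: seg x (a + j + 1) (m + 1 - 1 - j)))) =
      ∑ j ∈ range (m + 1), I j * (G (j + 1) - G j) := by
    apply Finset.sum_congr rfl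
    intro j hj
    rw [mem_range] at hj
    simp only [hI, hG]
    rw [star_seg_snoc, seg_length]
    have e7 : m + 1 - 1 - j = m + 1 - (j + 1) := by omega
    have e8 : x (a + j) :: seg x (a + j + 1) (m + 1 - 1 - j) = seg x (a + j) (m + 1 - j) := by
      rw [← seg_succ]
      congr 1
      omega
    rw [e8, e7, show a + (j + 1) = a + j + 1 by ring]
  rw [hv2, hpar] at hv
  have himp : phi t (x a :: seg x a (m + 1)) = 0 := by
    apply phi_improper
    rw [seg_succ]
    intro h
    exact h.1 rfl
  rw [himp] at hv
  have hG0 : G 0 = phi t (seg x a (m + 1)) / (1 - t) := by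
    simp only [hG]
    rw [seg_zero, pi_nil]
    simp
    ring
  have hGm : G (m + 1) = t ^ (m + 1) * pi' t (seg x a (m + 1)) := by
    simp only [hG]
    simp
  have hI0 : I 0 = 1 := by
    simp only [hI]
    exact star_ind_pos (by simp)
  have hIm : I m = ind (x (a + m) = x a) := rfl
  rw [hG0, hGm, hI0] at hv
  have hne : (1 : ℝ) - t ≠ 0 := by linarith
  rw [← hIm]
  set SS := ∑ l ∈ range m, G (l + 1) * (I (l + 1) - I l)
  have key : (1 + t) * SS = (1 + t) * (I m * (t ^ (m + 1) * pi' t (seg x a (m + 1))))
      - (1 + t) * (phi t (seg x a (m + 1)) / (1 - t)) + phi t (seg x a (m + 1)) / (1 - t) := by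
    linarith
  have hdiv : phi t (seg x a (m + 1)) / (1 - t) - t * (phi t (seg x a (m + 1)) / (1 - t))
      = phi t (seg x a (m + 1)) := by
    field_simp
  rw [key]
  linear_combination hdiv

end H187CC
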